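import Mathlib

/-! Counting lemmas for the sampling argument. -/

set_option autoImplicit false

namespace Pool.Agent.W5h17.Kirch

open Finset

section count

variable {α : Type*} [DecidableEq α]

lemma card_sample (X Z Y : Finset α) (hZ : Z ⊆ X) (hY : Y ⊆ X \ Z) (m : ℕ) :
    ((X.powersetCard m).filter (fun S => Z ⊆ S ∧ Disjoint S Y)).card ≤
      (X.card - Z.card - Y.card).choose (m - Z.card) := by
  have h1 : ((X \ Z) \ Y).card = X.card - Z.card - Y.card := by
    rw [card_sdiff_of_subset hY, card_sdiff_of_subset hZ]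
  rw [← h1, ← card_powersetCard]
  apply card_le_card_of_injOn (fun S => S \ Z)
  · intro S hS
    rw [mem_coe, mem_filter, mem_powersetCard] at hS
    obtain ⟨⟨hSX, hSc⟩, hZS, hSY⟩ := hS
    rw [mem_coe, mem_powersetCard]
    refine ⟨?_, ?_⟩
    · intro x hx
      rw [mem_sdiff] at hx
      rw [mem_sdiff, mem_sdiff]
      exact ⟨⟨hSX hx.1, hx.2⟩, fun h => (disjoint_left.mp hSY) hx.1 h⟩
    · rw [card_sdiff_of_subset hZS, hSc]
  · intro S hS T hT h
    rw [mem_coe, mem_filter, mem_powersetCard] at hS hT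
    have h' : S \ Z = T \ Z := h
    calc S = S \ Z ∪ Z := (sdiff_union_of_subset hS.2.1).symm
      _ = T \ Z ∪ Z := by rw [h']
      _ = T := sdiff_union_of_subset hT.2.1

lemma card_super (X Z : Finset α) (hZ : Z ⊆ X) (m : ℕ) :
    ((X.powersetCard m).filter (fun S => Z ⊆ S)).card ≤
      (X.card - Z.card).choose (m - Z.card) := by
  have := card_sample X Z ∅ hZ (empty_subset _) m
  simpa using this

end count

lemma desc_ratio (K b r : ℕ) :
    (K - b).descFactorial r * K ^ r ≤ (K - b) ^ r * K.descFactorial r := by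
  induction r with
  | zero => simp
  | succ r ih =>
    rw [Nat.descFactorial_succ, Nat.descFactorial_succ, pow_succ, pow_succ]
    have h : (K - b - r) * K ≤ (K - b) * (K - r) := by
      rcases Nat.lt_or_ge (K - b) r with h1 | h1
      · have : K - b - r = 0 := by omega
        rw [this]; simp
      · rcases Nat.lt_or_ge K b with h2 | h2
        · have : K - b = 0 := by omega
          simp [this]
        · obtain ⟨c, rfl⟩ := Nat.exists_eq_add_of_le h2
          have e1 : b + c - b = c := by omega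
          rw [e1] at h1 ⊢
          obtain ⟨e, rfl⟩ := Nat.exists_eq_add_of_le h1
          have e2 : r + e - r = e := by omega
          have e3 : b + (r + e) - r = b + e := by omega
          rw [e2, e3]
          nlinarith
    calc (K - b - r) * (K - b).descFactorial r * (K ^ r * K)
        = ((K - b).descFactorial r * K ^ r) * ((K - b - r) * K) := by ring
      _ ≤ ((K - b) ^ r * K.descFactorial r) * ((K - b) * (K - r)) := Nat.mul_le_mul ih h
      _ = (K - b) ^ r * (K - b) * ((K - r) * K.descFactorial r) := by ring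

lemma choose_ratio (K b r : ℕ) :
    (K - b).choose r * K ^ r ≤ (K - b) ^ r * K.choose r := by
  have h := desc_ratio K b r
  rw [Nat.descFactorial_eq_factorial_mul_choose, Nat.descFactorial_eq_factorial_mul_choose] at h
  have h2 : r.factorial * ((K - b).choose r * K ^ r) ≤ r.factorial * ((K - b) ^ r * K.choose r) := by
    calc r.factorial * ((K - b).choose r * K ^ r) = r.factorial * (K - b).choose r * K ^ r := by ring
      _ ≤ (K - b) ^ r * (r.factorial * K.choose r) := h
      _ = _ := by ring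
  exact Nat.le_of_mul_le_mul_left h2 r.factorial_pos

lemma choose_ratio_real (K b r : ℕ) (δ : ℝ) (hδ1 : δ ≤ 1) (hb : δ * K ≤ b) :
    ((K - b).choose r : ℝ) ≤ (1 - δ) ^ r * K.choose r := by
  rcases Nat.eq_zero_or_pos r with hr | hr
  · subst hr; simp
  rcases Nat.eq_zero_or_pos K with hK | hK
  · subst hK
    have : (0 - b).choose r = 0 := by
      rw [Nat.zero_sub]; exact Nat.choose_eq_zero_of_lt hr
    rw [this]
    have h1 : (0 : ℝ) ≤ 1 - δ := by linarith
    push_cast
    positivity
  have hK' : (0 : ℝ) < K := by exact_mod_cast hK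
  have h := choose_ratio K b r
  have h' : (((K - b).choose r * K ^ r : ℕ) : ℝ) ≤ (((K - b) ^ r * K.choose r : ℕ) : ℝ) := by
    exact_mod_cast h
  push_cast at h'
  have h2 : ((K - b : ℕ) : ℝ) ≤ (1 - δ) * K := by
    rcases Nat.lt_or_ge K b with h2 | h2
    · have : K - b = 0 := by omega
      rw [this]
      have h1 : (0 : ℝ) ≤ 1 - δ := by linarith
      push_cast
      positivity
    · rw [Nat.cast_sub h2]
      nlinarith
  have h3 : ((K - b : ℕ) : ℝ) ^ r ≤ ((1 - δ) * K) ^ r := pow_le_pow_left₀ (by positivity) h2 r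
  have h4 : ((K - b).choose r : ℝ) * (K : ℝ) ^ r ≤ ((1 - δ) ^ r * K.choose r) * (K : ℝ) ^ r := by
    calc ((K - b).choose r : ℝ) * (K : ℝ) ^ r ≤ ((K - b : ℕ) : ℝ) ^ r * K.choose r := h'
      _ ≤ ((1 - δ) * K) ^ r * K.choose r := by gcongr
      _ = _ := by rw [mul_pow]; ring
  exact le_of_mul_le_mul_right h4 (by positivity)

section sampling

variable {α : Type*} [DecidableEq α]

/-- The sampling lemma: there is an `m`-element subset `S` of `X` which contains no member of `F`
and such that every set `Bad Z σ`, with `Z` a `k`-element subset of `S`, which is disjoint from `S`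
has fewer than `δ |X|` elements. -/
lemma sampling (X : Finset α) (k m : ℕ) (hm : k + 2 ≤ m) (hmX : m ≤ X.card) (ε δ : ℝ)
    (hδ0 : 0 ≤ δ) (hδ1 : δ ≤ 1) (F : Finset (Finset α)) (hF : F ⊆ X.powersetCard (k + 2))
    (hFc : (F.card : ℝ) ≤ ε * (X.card.choose (k + 2)))
    (Bad : Finset α → Bool → Finset α)
    (hBad : ∀ Z σ, Bad Z σ ⊆ X \ Z)
    (hlt : ε * m.choose (k + 2) + 2 * m.choose k * (1 - δ) ^ (m - k) < 1) :
    ∃ S ∈ X.powersetCard m, (∀ f ∈ F, ¬ f ⊆ S) ∧
      ∀ Z ∈ X.powersetCard k, Z ⊆ S → ∀ σ, Disjoint S (Bad Z σ) →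
        ((Bad Z σ).card : ℝ) < δ * X.card := by
  classical
  by_contra hcon
  push Not at hcon
  set M := X.card with hM
  -- the family of big pairs
  set B : Finset (Finset α × Bool) := ((X.powersetCard k) ×ˢ (univ : Finset Bool)).filter
    (fun p => δ * M ≤ ((Bad p.1 p.2).card : ℝ)) with hB
  have hcover : X.powersetCard m ⊆
      (F.biUnion fun f => (X.powersetCard m).filter (fun S => f ⊆ S)) ∪
      (B.biUnion fun p => (X.powersetCard m).filter (fun S => p.1 ⊆ S ∧ Disjoint S (Bad p.1 p.2))) := by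
    intro S hS
    rw [mem_union, mem_biUnion, mem_biUnion]
    by_cases h1 : ∀ f ∈ F, ¬ f ⊆ S
    · right
      obtain ⟨Z, hZ, hZS, σ, hdis, hle⟩ := hcon S hS h1
      exact ⟨(Z, σ), by rw [hB, mem_filter, mem_product]; exact ⟨⟨hZ, mem_univ _⟩, hle⟩,
        mem_filter.mpr ⟨hS, hZS, hdis⟩⟩
    · left
      push Not at h1
      obtain ⟨f, hf, hfS⟩ := h1
      exact ⟨f, hf, mem_filter.mpr ⟨hS, hfS⟩⟩
  have h1 := card_le_card hcover
  rw [card_powersetCard] at h1
  have h2 : (F.biUnion fun f => (X.powersetCard m).filter (fun S => f ⊆ S)).card ≤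
      F.card * (M - (k + 2)).choose (m - (k + 2)) := by
    apply card_biUnion_le_card_mul
    intro f hf
    have hf' := mem_powersetCard.mp (hF hf)
    have := card_super X f hf'.1 m
    rwa [hf'.2] at this
  have h3 : ((B.biUnion fun p => (X.powersetCard m).filter
      (fun S => p.1 ⊆ S ∧ Disjoint S (Bad p.1 p.2))).card : ℝ) ≤
      B.card * ((1 - δ) ^ (m - k) * (M - k).choose (m - k)) := by
    have h31 : (B.biUnion fun p => (X.powersetCard m).filter
      (fun S => p.1 ⊆ S ∧ Disjoint S (Bad p.1 p.2))).card ≤ ∑ p ∈ B, ((X.powersetCard m).filter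
      (fun S => p.1 ⊆ S ∧ Disjoint S (Bad p.1 p.2))).card := card_biUnion_le
    have h32 : ((B.biUnion fun p => (X.powersetCard m).filter
      (fun S => p.1 ⊆ S ∧ Disjoint S (Bad p.1 p.2))).card : ℝ) ≤ ∑ p ∈ B, (((X.powersetCard m).filter
      (fun S => p.1 ⊆ S ∧ Disjoint S (Bad p.1 p.2))).card : ℝ) := by exact_mod_cast h31
    refine h32.trans ?_
    rw [← nsmul_eq_mul]
    apply sum_le_card_nsmul
    rintro ⟨Z, σ⟩ hp
    rw [hB, mem_filter, mem_product] at hp
    obtain ⟨⟨hZ, -⟩, hbig⟩ := hp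
    have hZ' := mem_powersetCard.mp hZ
    have h33 := card_sample X Z (Bad Z σ) hZ'.1 (hBad Z σ) m
    rw [hZ'.2] at h33
    have h34 := choose_ratio_real (M - k) (Bad Z σ).card (m - k) δ hδ1 (by
      refine le_trans ?_ hbig
      apply mul_le_mul_of_nonneg_left _ hδ0
      exact_mod_cast Nat.sub_le M k)
    have h35 : ((((X.powersetCard m).filter (fun S => Z ⊆ S ∧ Disjoint S (Bad Z σ))).card : ℕ) : ℝ) ≤
      ((M - k - (Bad Z σ).card).choose (m - k) : ℕ) := by exact_mod_cast h33
    exact h35.trans h34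
  have h4 : (B.card : ℝ) ≤ 2 * M.choose k := by
    have : B.card ≤ ((X.powersetCard k) ×ˢ (univ : Finset Bool)).card := card_filter_le _ _
    rw [card_product, card_powersetCard, card_univ, Fintype.card_bool] at this
    have h5 : (B.card : ℝ) ≤ ((X.card.choose k * 2 : ℕ) : ℝ) := by exact_mod_cast this
    push_cast at h5
    linarith
  have h5 : ((M.choose m : ℕ) : ℝ) ≤ F.card * (M - (k + 2)).choose (m - (k + 2)) +
      B.card * ((1 - δ) ^ (m - k) * (M - k).choose (m - k)) := by
    have h51 : ((M.choose m : ℕ) : ℝ) ≤ ((F.biUnion fun f => (X.powersetCard m).filter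
        (fun S => f ⊆ S)).card : ℝ) + ((B.biUnion fun p => (X.powersetCard m).filter
      (fun S => p.1 ⊆ S ∧ Disjoint S (Bad p.1 p.2))).card : ℝ) := by
      exact_mod_cast h1.trans (card_union_le _ _)
    have h52 : ((F.biUnion fun f => (X.powersetCard m).filter (fun S => f ⊆ S)).card : ℝ) ≤
      F.card * (M - (k + 2)).choose (m - (k + 2)) := by exact_mod_cast h2
    linarith
  have h6 : ((M.choose (k + 2) : ℕ) : ℝ) * (M - (k + 2)).choose (m - (k + 2)) =
      M.choose m * m.choose (k + 2) := by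
    exact_mod_cast (Nat.choose_mul (n := M) (k := m) (s := k + 2) hm).symm
  have h7 : ((M.choose k : ℕ) : ℝ) * (M - k).choose (m - k) = M.choose m * m.choose k := by
    exact_mod_cast (Nat.choose_mul (n := M) (k := m) (s := k) (by omega)).symm
  have h8 : (0 : ℝ) < M.choose m := by exact_mod_cast Nat.choose_pos hmX
  have h9 : (0 : ℝ) ≤ (1 - δ) ^ (m - k) := pow_nonneg (by linarith) _
  have h10 : (F.card : ℝ) * (M - (k + 2)).choose (m - (k + 2)) ≤
      ε * (M.choose m * m.choose (k + 2)) := by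
    rw [← h6, ← mul_assoc]
    apply mul_le_mul_of_nonneg_right hFc (by positivity)
  have h11 : (B.card : ℝ) * ((1 - δ) ^ (m - k) * (M - k).choose (m - k)) ≤
      2 * (1 - δ) ^ (m - k) * (M.choose m * m.choose k) := by
    rw [← h7]
    calc (B.card : ℝ) * ((1 - δ) ^ (m - k) * (M - k).choose (m - k)) ≤
        (2 * M.choose k) * ((1 - δ) ^ (m - k) * (M - k).choose (m - k)) :=
          mul_le_mul_of_nonneg_right h4 (by positivity)
      _ = _ := by ring
  have h12 : (M.choose m : ℝ) ≤ M.choose m *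
      (ε * m.choose (k + 2) + 2 * m.choose k * (1 - δ) ^ (m - k)) := by
    nlinarith [h5, h10, h11]
  nlinarith [h12, h8, hlt]

end sampling

end Pool.Agent.W5h17.Kirch
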