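import Mathlib

/-! Kirchberger's theorem and extremal separating hyperplanes for finite sets. -/

set_option autoImplicit false

namespace Pool.Agent.W5h17.Kirch

open Module Finset

/-- the Euclidean space of dimension `d` -/
abbrev E (d : ℕ) := EuclideanSpace ℝ (Fin d)

variable {d : ℕ}

/-- evaluation of the affine functional with parameter `w` -/
noncomputable def ev (w : E d × ℝ) (x : E d) : ℝ := inner ℝ w.1 x - w.2

lemma ev_add (w w' : E d × ℝ) (x : E d) : ev (w + w') x = ev w x + ev w' x := by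
  simp only [ev, Prod.fst_add, Prod.snd_add, inner_add_left]; ring

lemma ev_smul (t : ℝ) (w : E d × ℝ) (x : E d) : ev (t • w) x = t * ev w x := by
  simp only [ev, Prod.smul_fst, Prod.smul_snd, inner_smul_left, smul_eq_mul]
  simp; ring

/-- the evaluation as a linear map -/
noncomputable def evL (x : E d) : (E d × ℝ) →ₗ[ℝ] ℝ where
  toFun w := ev w x
  map_add' w w' := ev_add w w' x
  map_smul' t w := ev_smul t w x

@[simp] lemma evL_apply (x : E d) (w : E d × ℝ) : evL x w = ev w x := rfl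

lemma finrank_W : finrank ℝ (E d × ℝ) = d + 1 := by
  rw [finrank_prod]; simp

/-- strict separation by an affine functional -/
def Sep (P Q : Finset (E d)) : Prop := ∃ w : E d × ℝ, (∀ x ∈ P, ev w x < 0) ∧ ∀ x ∈ Q, 0 < ev w x

/-- no `d + 1` points on a hyperplane, in terms of functionals -/
def GP (X : Finset (E d)) : Prop :=
  ∀ I ⊆ X, I.card = d + 1 → ∀ w : E d × ℝ, (∀ x ∈ I, ev w x = 0) → w = 0

lemma kirchberger [DecidableEq (E d)] (P Q : Finset (E d)) (hcard : d + 2 ≤ (P ∪ Q).card)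
    (h : ∀ I ⊆ P ∪ Q, I.card = d + 2 → Sep (P ∩ I) (Q ∩ I)) : Sep P Q := by
  classical
  have h1 : (⋂ x ∈ P ∪ Q, {w : E d × ℝ | (x ∈ P → ev w x < 0) ∧ (x ∈ Q → 0 < ev w x)}).Nonempty := by
    apply Convex.helly_theorem (𝕜 := ℝ)
    · rw [finrank_W]; exact hcard
    · intro x _
      have h2 : Convex ℝ {w : E d × ℝ | ev w x < 0} := by
        have := (convex_Iio (0 : ℝ)).linear_preimage (evL x)
        exact this
      have h3 : Convex ℝ {w : E d × ℝ | 0 < ev w x} := by
        have := (convex_Ioi (0 : ℝ)).linear_preimage (evL x)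
        exact this
      by_cases hp : x ∈ P <;> by_cases hq : x ∈ Q
      · have : {w : E d × ℝ | (x ∈ P → ev w x < 0) ∧ (x ∈ Q → 0 < ev w x)} =
          {w : E d × ℝ | ev w x < 0} ∩ {w : E d × ℝ | 0 < ev w x} := by
          ext w; simp [hp, hq]
        rw [this]; exact h2.inter h3
      · have : {w : E d × ℝ | (x ∈ P → ev w x < 0) ∧ (x ∈ Q → 0 < ev w x)} =
          {w : E d × ℝ | ev w x < 0} := by
          ext w; simp [hp, hq]
        rw [this]; exact h2
      · have : {w : E d × ℝ | (x ∈ P → ev w x < 0) ∧ (x ∈ Q → 0 < ev w x)} =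
          {w : E d × ℝ | 0 < ev w x} := by
          ext w; simp [hp, hq]
        rw [this]; exact h3
      · have : {w : E d × ℝ | (x ∈ P → ev w x < 0) ∧ (x ∈ Q → 0 < ev w x)} = Set.univ := by
          ext w; simp [hp, hq]
        rw [this]; exact convex_univ
    · intro I hI hc
      rw [finrank_W] at hc
      obtain ⟨w, hw1, hw2⟩ := h I hI hc
      refine ⟨w, ?_⟩
      simp only [Set.mem_iInter]
      intro x hx
      exact ⟨fun hp => hw1 x (mem_inter.mpr ⟨hp, hx⟩), fun hq => hw2 x (mem_inter.mpr ⟨hq, hx⟩)⟩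
  obtain ⟨w, hw⟩ := h1
  simp only [Set.mem_iInter] at hw
  exact ⟨w, fun x hx => (hw x (mem_union_left _ hx)).1 hx,
    fun x hx => (hw x (mem_union_right _ hx)).2 hx⟩

/-- weak separation -/
def Ok (P Q : Finset (E d)) (w : E d × ℝ) : Prop :=
  (∀ x ∈ P, ev w x ≤ 0) ∧ (∀ x ∈ Q, 0 ≤ ev w x) ∧ w ≠ 0

lemma improve [DecidableEq (E d)] (P Q : Finset (E d)) (hX : d + 1 ≤ (P ∪ Q).card)
    (hgp : GP (P ∪ Q)) (w : E d × ℝ) (hw : Ok P Q w)
    (hc : ((P ∪ Q).filter (fun x => ev w x = 0)).card < d) :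
    ∃ w' : E d × ℝ, Ok P Q w' ∧ ((P ∪ Q).filter (fun x => ev w x = 0)).card <
      ((P ∪ Q).filter (fun x => ev w' x = 0)).card := by
  classical
  set X := P ∪ Q with hXdef
  set Z := X.filter (fun x => ev w x = 0) with hZ
  -- the kernel
  let L : (E d × ℝ) →ₗ[ℝ] (Z → ℝ) := LinearMap.pi (fun z => evL (z : E d))
  have hker : ¬ (LinearMap.ker L ≤ Submodule.span ℝ {w}) := by
    intro hle
    have h1 := Submodule.finrank_mono hle
    have h2 : finrank ℝ (Submodule.span ℝ {w}) ≤ 1 := by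
      have := finrank_span_singleton (K := ℝ) hw.2.2
      omega
    have h3 := LinearMap.finrank_range_add_finrank_ker L
    have h4 : finrank ℝ (LinearMap.range L) ≤ Z.card := by
      have := Submodule.finrank_le (LinearMap.range L)
      simpa using this
    rw [finrank_W] at h3
    omega
  obtain ⟨w', hw'1, hw'2⟩ := Set.not_subset.mp hker
  have hvan : ∀ x ∈ Z, ev w' x = 0 := by
    intro x hx
    have : L w' = 0 := hw'1
    have := congrFun this ⟨x, hx⟩
    simpa [L] using this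
  have hw'0 : w' ≠ 0 := by
    intro h0
    apply hw'2
    rw [h0]
    exact Submodule.zero_mem _
  -- points where w' does not vanish
  obtain ⟨x1, hx1, hx1'⟩ : ∃ x ∈ X, ev w' x ≠ 0 := by
    by_contra hcon
    push Not at hcon
    obtain ⟨I, hI, hIc⟩ := exists_subset_card_eq hX
    exact hw'0 (hgp I hI hIc w' (fun x hx => hcon x (hI hx)))
  set S := X.filter (fun x => ev w' x ≠ 0) with hS
  have hSne : S.Nonempty := ⟨x1, by simp [hS, hx1, hx1']⟩
  obtain ⟨x0, hx0, hmin⟩ := S.exists_min_image (fun x => |ev w x / ev w' x|) hSne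
  have hx0' := (mem_filter.mp hx0)
  have hx0Z : x0 ∉ Z := fun h => hx0'.2 (hvan x0 h)
  have hevw : ev w x0 ≠ 0 := by
    intro h
    exact hx0Z (mem_filter.mpr ⟨hx0'.1, h⟩)
  set s : ℝ := -(ev w x0 / ev w' x0) with hs
  have hs0 : s ≠ 0 := by
    rw [hs]; simp [hevw, hx0'.2]
  have habs : |s| = |ev w x0 / ev w' x0| := by rw [hs, abs_neg]
  have hkey : ∀ y ∈ X, |s * ev w' y| ≤ |ev w y| := by
    intro y hy
    by_cases hy0 : ev w' y = 0
    · rw [hy0]; simp
    · have := hmin y (mem_filter.mpr ⟨hy, hy0⟩)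
      rw [← habs, abs_div] at this
      rw [abs_mul]
      rwa [le_div_iff₀ (abs_pos.mpr hy0)] at this
  have hev : ∀ y, ev (w + s • w') y = ev w y + s * ev w' y := by
    intro y; rw [ev_add, ev_smul]
  refine ⟨w + s • w', ⟨?_, ?_, ?_⟩, ?_⟩
  · intro x hx
    rw [hev]
    have h1 := hw.1 x hx
    have h2 := hkey x (mem_union_left _ hx)
    rw [abs_of_nonpos h1] at h2
    have := le_abs_self (s * ev w' x)
    linarith
  · intro x hx
    rw [hev]
    have h1 := hw.2.1 x hx
    have h2 := hkey x (mem_union_right _ hx)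
    rw [abs_of_nonneg h1] at h2
    have := neg_abs_le (s * ev w' x)
    linarith
  · intro h0
    apply hw'2
    have h5 : w' = (-s⁻¹) • w := by
      have h6 : s • w' = -w := by
        rw [eq_neg_iff_add_eq_zero, add_comm]; exact h0
      calc w' = s⁻¹ • (s • w') := by rw [smul_smul, inv_mul_cancel₀ hs0, one_smul]
        _ = (-s⁻¹) • w := by rw [h6]; simp
    rw [h5]
    exact Submodule.smul_mem _ _ (Submodule.mem_span_singleton_self w)
  · apply Finset.card_lt_card
    rw [Finset.ssubset_iff_of_subset]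
    · refine ⟨x0, mem_filter.mpr ⟨hx0'.1, ?_⟩, hx0Z⟩
      rw [hev, hs]
      field_simp [hx0'.2]
      ring
    · intro y hy
      have hy' := mem_filter.mp hy
      refine mem_filter.mpr ⟨hy'.1, ?_⟩
      rw [hev, hy'.2, hvan y hy]
      simp

lemma exists_extremal [DecidableEq (E d)] (P Q : Finset (E d)) (hX : d + 1 ≤ (P ∪ Q).card)
    (hgp : GP (P ∪ Q)) (w0 : E d × ℝ) (hw0 : Ok P Q w0) :
    ∃ w : E d × ℝ, Ok P Q w ∧ ((P ∪ Q).filter (fun x => ev w x = 0)).card = d := by
  classical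
  have hle : ∀ w, Ok P Q w → ((P ∪ Q).filter (fun x => ev w x = 0)).card ≤ d := by
    intro w hw
    by_contra hcon
    push Not at hcon
    obtain ⟨I, hI, hIc⟩ := exists_subset_card_eq (Nat.succ_le_of_lt hcon)
    exact hw.2.2 (hgp I (fun x hx => (mem_filter.mp (hI hx)).1) hIc w
      (fun x hx => (mem_filter.mp (hI hx)).2))
  -- strong induction on d - card
  have key : ∀ k : ℕ, ∀ w, Ok P Q w → d - ((P ∪ Q).filter (fun x => ev w x = 0)).card = k →
      ∃ w : E d × ℝ, Ok P Q w ∧ ((P ∪ Q).filter (fun x => ev w x = 0)).card = d := by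
    intro k
    induction k using Nat.strong_induction_on with
    | _ k ih =>
      intro w hw hk
      by_cases hc : ((P ∪ Q).filter (fun x => ev w x = 0)).card < d
      · obtain ⟨w', hw', hlt⟩ := improve P Q hX hgp w hw hc
        have h1 := hle w' hw'
        exact ih (d - ((P ∪ Q).filter (fun x => ev w' x = 0)).card) (by omega) w' hw' rfl
      · exact ⟨w, hw, le_antisymm (hle w hw) (not_lt.mp hc)⟩
  exact key _ w0 hw0 rfl

lemma unique_up_to [DecidableEq (E d)] (X : Finset (E d)) (hX : d + 1 ≤ X.card) (hgp : GP X)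
    (Z : Finset (E d)) (hZ : Z ⊆ X) (hZc : Z.card = d) (w1 w2 : E d × ℝ) (h1 : w1 ≠ 0)
    (h2 : w2 ≠ 0) (hv1 : ∀ x ∈ Z, ev w1 x = 0) (hv2 : ∀ x ∈ Z, ev w2 x = 0) :
    ∃ t : ℝ, t ≠ 0 ∧ w1 = t • w2 := by
  classical
  obtain ⟨x, hx, hxZ⟩ : ∃ x ∈ X, x ∉ Z := by
    by_contra hcon
    push Not at hcon
    have := card_le_card (show X ⊆ Z from hcon)
    omega
  have hI : insert x Z ⊆ X := by
    intro y hy
    rcases mem_insert.mp hy with rfl | hy
    · exact hx
    · exact hZ hy
  have hIc : (insert x Z).card = d + 1 := by rw [card_insert_of_notMem hxZ, hZc]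
  have hne : ∀ w : E d × ℝ, w ≠ 0 → (∀ x ∈ Z, ev w x = 0) → ev w x ≠ 0 := by
    intro w hw hv h0
    apply hw
    apply hgp _ hI hIc
    intro y hy
    rcases mem_insert.mp hy with rfl | hy
    · exact h0
    · exact hv y hy
  have ha1 := hne w1 h1 hv1
  have ha2 := hne w2 h2 hv2
  refine ⟨ev w1 x / ev w2 x, div_ne_zero ha1 ha2, ?_⟩
  have h3 : w1 + (-(ev w1 x / ev w2 x)) • w2 = 0 := by
    apply hgp _ hI hIc
    intro y hy
    rw [ev_add, ev_smul]
    rcases mem_insert.mp hy with rfl | hy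
    · field_simp; ring
    · rw [hv1 y hy, hv2 y hy]; ring
  have h4 := eq_neg_of_add_eq_zero_left h3
  rw [neg_smul, neg_neg] at h4
  exact h4

end Pool.Agent.W5h17.Kirch
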