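import Mathlib
import Pool.Agent.W5h17.KirchGeom
import Pool.Agent.W5h17.KirchCount

/-! The positive fraction version of Kirchberger's theorem: core statement with parameters. -/

set_option autoImplicit false

namespace Pool.Agent.W5h17.Kirch

open Module Finset

variable {d : ℕ}

lemma sep_mono {P Q P' Q' : Finset (E d)} (hP : P' ⊆ P) (hQ : Q' ⊆ Q) (h : Sep P Q) : Sep P' Q' := by
  obtain ⟨w, h1, h2⟩ := h
  exact ⟨w, fun x hx => h1 x (hP hx), fun x hx => h2 x (hQ hx)⟩

/-- `d + 1` points in general position: any two complementary parts are separated. -/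
lemma sep_of_card [DecidableEq (E d)] (P Q : Finset (E d)) (hdis : Disjoint P Q)
    (hc : (P ∪ Q).card = d + 1) (hgp : GP (P ∪ Q)) : Sep P Q := by
  classical
  set X := P ∪ Q with hX
  let L : (E d × ℝ) →ₗ[ℝ] (X → ℝ) := LinearMap.pi (fun z => evL (z : E d))
  have hinj : Function.Injective L := by
    rw [← LinearMap.ker_eq_bot, LinearMap.ker_eq_bot']
    intro w hw
    apply hgp X (Subset.refl _) hc
    intro x hx
    have := congrFun hw ⟨x, hx⟩
    simpa [L] using this
  have hfr : finrank ℝ (E d × ℝ) = finrank ℝ (X → ℝ) := by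
    rw [finrank_W]; simp [hc]
  have hsurj : Function.Surjective L :=
    (LinearMap.injective_iff_surjective_of_finrank_eq_finrank hfr).mp hinj
  obtain ⟨w, hw⟩ := hsurj (fun x => if (x : E d) ∈ P then -1 else 1)
  refine ⟨w, ?_, ?_⟩
  · intro x hx
    have := congrFun hw ⟨x, mem_union_left _ hx⟩
    simp only [L, LinearMap.pi_apply, evL_apply, hx, if_true] at this
    rw [this]; norm_num
  · intro x hx
    have := congrFun hw ⟨x, mem_union_right _ hx⟩
    have hx' : x ∉ P := fun h => (disjoint_left.mp hdis) h hx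
    simp only [L, LinearMap.pi_apply, evL_apply, hx', if_false] at this
    rw [this]; norm_num

/-- affinely independent points: any two complementary parts are separated. -/
lemma sep_of_affineIndependent [DecidableEq (E d)] (P Q : Finset (E d)) (hdis : Disjoint P Q)
    (hP : P.Nonempty) (hQ : Q.Nonempty)
    (hai : AffineIndependent ℝ (fun x : ↥(P ∪ Q) => (x : E d))) : Sep P Q := by
  classical
  have h1 : convexHull ℝ ((P : Set (E d)) ∩ (Q : Set (E d))) =
      convexHull ℝ (P : Set (E d)) ∩ convexHull ℝ (Q : Set (E d)) := by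
    apply AffineIndependent.convexHull_inter (s := P ∪ Q) hai
    · exact subset_union_left
    · exact subset_union_right
  have h2 : (P : Set (E d)) ∩ (Q : Set (E d)) = ∅ := by
    rw [← coe_inter, disjoint_iff_inter_eq_empty.mp hdis]; simp
  rw [h2, convexHull_empty] at h1
  have hd : Disjoint (convexHull ℝ (P : Set (E d))) (convexHull ℝ (Q : Set (E d))) :=
    Set.disjoint_iff_inter_eq_empty.mpr h1.symm
  obtain ⟨f, u, v, hfu, huv, hfv⟩ := geometric_hahn_banach_compact_closed
    (convex_convexHull ℝ _) (Set.Finite.isCompact_convexHull (𝕜 := ℝ) P.finite_toSet)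
    (convex_convexHull ℝ _) (Set.Finite.isCompact_convexHull (𝕜 := ℝ) Q.finite_toSet).isClosed hd
  have hf : ∀ x, f x = inner ℝ ((InnerProductSpace.toDual ℝ (E d)).symm f) x := by
    intro x; rw [InnerProductSpace.toDual_symm_apply]
  refine ⟨((InnerProductSpace.toDual ℝ (E d)).symm f, (u + v) / 2), ?_, ?_⟩
  · intro x hx
    have := hfu x (subset_convexHull ℝ _ hx)
    simp only [ev]
    rw [← hf]; linarith
  · intro x hx
    have := hfv x (subset_convexHull ℝ _ hx)
    simp only [ev]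
    rw [← hf]; linarith

/-- Kirchberger's theorem for points in general position, with the hypothesis only for the subsets
with exactly `d + 2` elements. -/
lemma kirchberger_gp [DecidableEq (E d)] (P Q : Finset (E d)) (hdis : Disjoint P Q)
    (hcard : d + 1 ≤ (P ∪ Q).card) (hgp : GP (P ∪ Q))
    (h : ∀ I ⊆ P ∪ Q, I.card = d + 2 → Sep (P ∩ I) (Q ∩ I)) : Sep P Q := by
  rcases Nat.lt_or_ge (P ∪ Q).card (d + 2) with h1 | h1
  · exact sep_of_card P Q hdis (by omega) hgp
  · exact kirchberger P Q h1 h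

/-- the chosen functional vanishing on `Z` -/
noncomputable def wZ (Z : Finset (E d)) : E d × ℝ := by
  classical
  exact if h : ∃ w : E d × ℝ, w ≠ 0 ∧ ∀ x ∈ Z, ev w x = 0 then h.choose else 0

lemma wZ_spec {Z : Finset (E d)} (h : ∃ w : E d × ℝ, w ≠ 0 ∧ ∀ x ∈ Z, ev w x = 0) :
    wZ Z ≠ 0 ∧ ∀ x ∈ Z, ev (wZ Z) x = 0 := by
  unfold wZ
  rw [dif_pos h]
  exact h.choose_spec

/-- the sign -/
def sg (σ : Bool) : ℝ := if σ then 1 else -1

/-- misclassified points -/
noncomputable def Bad [DecidableEq (E d)] (A B : Finset (E d)) (Z : Finset (E d)) (σ : Bool) :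
    Finset (E d) := by
  classical
  exact ((A ∪ B) \ Z).filter (fun x => ¬ ((x ∈ A → sg σ * ev (wZ Z) x < 0) ∧
    (x ∈ B → 0 < sg σ * ev (wZ Z) x)))

lemma core [DecidableEq (E d)] (A B : Finset (E d)) (hdis : Disjoint A B)
    (hgp : GP (A ∪ B)) (m : ℕ) (hm : d + 2 ≤ m)
    (hmX : m ≤ (A ∪ B).card) (ε δ : ℝ) (hδ0 : 0 ≤ δ) (hδ1 : δ ≤ 1) (F : Finset (Finset (E d)))
    (hF : F ⊆ (A ∪ B).powersetCard (d + 2))
    (hFc : (F.card : ℝ) ≤ ε * ((A ∪ B).card.choose (d + 2)))
    (hgood : ∀ I ∈ (A ∪ B).powersetCard (d + 2), I ∉ F → Sep (A ∩ I) (B ∩ I))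
    (hlt : ε * m.choose (d + 2) + 2 * m.choose d * (1 - δ) ^ (m - d) < 1) :
    ∃ A' ⊆ A, ∃ B' ⊆ B, Sep A' B' ∧ (A.card : ℝ) - δ * (A ∪ B).card - d ≤ A'.card ∧
      (B.card : ℝ) - δ * (A ∪ B).card - d ≤ B'.card := by
  classical
  set X := A ∪ B with hX
  obtain ⟨S, hS, hS1, hS2⟩ := sampling X d m hm hmX ε δ hδ0 hδ1 F hF hFc (Bad A B)
    (by intro Z σ; unfold Bad; exact filter_subset _ _) hlt
  have hS' := mem_powersetCard.mp hS
  set P := A ∩ S with hP
  set Q := B ∩ S with hQ
  have hPQ : P ∪ Q = S := by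
    rw [hP, hQ, ← union_inter_distrib_right, ← hX]
    exact inter_eq_right.mpr hS'.1
  have hgpS : GP (P ∪ Q) := by
    intro I hI hIc w hw
    exact hgp I (fun x hx => hS'.1 (by rw [← hPQ]; exact hI hx)) hIc w hw
  have hcS : (P ∪ Q).card = m := by rw [hPQ, hS'.2]
  have hsep : Sep P Q := by
    apply kirchberger P Q (by omega)
    intro I hI hIc
    rw [hPQ] at hI
    have hIX : I ∈ X.powersetCard (d + 2) := mem_powersetCard.mpr ⟨hI.trans hS'.1, hIc⟩
    have h1 : I ∉ F := fun h => hS1 I h hI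
    refine sep_mono ?_ ?_ (hgood I hIX h1)
    · intro x hx
      rw [mem_inter, hP, mem_inter] at hx
      exact mem_inter.mpr ⟨hx.1.1, hx.2⟩
    · intro x hx
      rw [mem_inter, hQ, mem_inter] at hx
      exact mem_inter.mpr ⟨hx.1.1, hx.2⟩
  obtain ⟨w0, hw01, hw02⟩ := hsep
  have hw0ne : w0 ≠ 0 := by
    intro h0
    have hne : (P ∪ Q).Nonempty := by rw [← card_pos]; omega
    obtain ⟨x, hx⟩ := hne
    rcases mem_union.mp hx with hx | hx
    · have := hw01 x hx
      rw [h0] at this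
      simp [ev] at this
    · have := hw02 x hx
      rw [h0] at this
      simp [ev] at this
  obtain ⟨w, hw, hwc⟩ := exists_extremal P Q (by omega) hgpS w0
    ⟨fun x hx => (hw01 x hx).le, fun x hx => (hw02 x hx).le, hw0ne⟩
  set Z := (P ∪ Q).filter (fun x => ev w x = 0) with hZ
  have hZS : Z ⊆ S := by
    rw [← hPQ]; exact filter_subset _ _
  have hZX : Z ⊆ X := hZS.trans hS'.1
  have hZv : ∀ x ∈ Z, ev w x = 0 := fun x hx => (mem_filter.mp hx).2
  have hwZ := wZ_spec ⟨w, hw.2.2, hZv⟩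
  obtain ⟨t, ht, hwt⟩ := unique_up_to X (by omega) hgp Z hZX hwc w (wZ Z) hw.2.2 hwZ.1 hZv hwZ.2
  -- the sign
  set σ : Bool := decide (0 < t) with hσ
  have hsg : ∀ x, ∃ r : ℝ, 0 < r ∧ ev w x = r * (sg σ * ev (wZ Z) x) := by
    intro x
    refine ⟨|t|, abs_pos.mpr ht, ?_⟩
    rw [hwt, ev_smul, ← mul_assoc]
    congr 1
    unfold sg
    by_cases h : 0 < t
    · simp [hσ, h, abs_of_pos h]
    · have h' : t < 0 := lt_of_le_of_ne (not_lt.mp h) ht
      simp [hσ, h, abs_of_neg h']
  have hdisj : Disjoint S (Bad A B Z σ) := by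
    rw [disjoint_left]
    intro x hxS hxB
    unfold Bad at hxB
    rw [mem_filter, mem_sdiff] at hxB
    obtain ⟨⟨hxX, hxZ⟩, hx3⟩ := hxB
    apply hx3
    have hne : ev w x ≠ 0 := by
      intro h0
      exact hxZ (mem_filter.mpr ⟨by rw [hPQ]; exact hxS, h0⟩)
    obtain ⟨r, hr, hrx⟩ := hsg x
    constructor
    · intro hxA
      have h1 := hw.1 x (mem_inter.mpr ⟨hxA, hxS⟩)
      have h2 : ev w x < 0 := lt_of_le_of_ne h1 hne
      rw [hrx] at h2
      by_contra hcon
      push Not at hcon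
      have := mul_nonneg hr.le hcon
      linarith
    · intro hxA
      have h1 := hw.2.1 x (mem_inter.mpr ⟨hxA, hxS⟩)
      have h2 : 0 < ev w x := lt_of_le_of_ne h1 hne.symm
      rw [hrx] at h2
      by_contra hcon
      push Not at hcon
      have := mul_nonpos_of_nonneg_of_nonpos hr.le hcon
      linarith
  have hbadlt := hS2 Z (mem_powersetCard.mpr ⟨hZX, hwc⟩) hZS σ hdisj
  have hcount : ∀ Y : Finset (E d), (Y.card : ℝ) - δ * X.card - d ≤
      ((Y \ (Z ∪ Bad A B Z σ)).card : ℝ) := by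
    intro Y
    have h1 : Y.card ≤ (Y \ (Z ∪ Bad A B Z σ)).card + (Z ∪ Bad A B Z σ).card := by
      have := card_le_card_sdiff_add_card (s := Y) (t := Z ∪ Bad A B Z σ)
      omega
    have h2 : (Z ∪ Bad A B Z σ).card ≤ d + (Bad A B Z σ).card := by
      have := card_union_le Z (Bad A B Z σ)
      omega
    have h3 : (Y.card : ℝ) ≤ (Y \ (Z ∪ Bad A B Z σ)).card + (d + (Bad A B Z σ).card) := by
      exact_mod_cast h1.trans (Nat.add_le_add_left h2 _)
    linarith
  refine ⟨A \ (Z ∪ Bad A B Z σ), sdiff_subset, B \ (Z ∪ Bad A B Z σ), sdiff_subset, ?_,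
    hcount A, hcount B⟩
  refine ⟨sg σ • wZ Z, ?_, ?_⟩
  · intro x hx
    rw [mem_sdiff, mem_union] at hx
    push Not at hx
    have h1 : x ∈ X := mem_union_left _ hx.1
    have h2 := hx.2.2
    unfold Bad at h2
    rw [mem_filter, mem_sdiff] at h2
    push Not at h2
    have h3 := h2 ⟨h1, hx.2.1⟩
    rw [ev_smul]
    exact h3.1 hx.1
  · intro x hx
    rw [mem_sdiff, mem_union] at hx
    push Not at hx
    have h1 : x ∈ X := mem_union_right _ hx.1
    have h2 := hx.2.2
    unfold Bad at h2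
    rw [mem_filter, mem_sdiff] at h2
    push Not at h2
    have h3 := h2 ⟨h1, hx.2.1⟩
    rw [ev_smul]
    exact h3.2 hx.1

end Pool.Agent.W5h17.Kirch
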